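import Pool.Agent.MWFE.StmtsB

/-!
Row CL0 of squad MWFE (MP_23468a_al).
-/

set_option autoImplicit false

namespace Pool.Agent.MWFE.H29

open Pool.Agent.Helper14_MV Pool.Agent.Helper2_MV Pool.Agent.MVD Pool.Agent.MWFE
open Pool.Agent.MWE (Can XX fxy dxy dx dy up cp L4 pr Xs xl isx Fs nd nr)
open Pool.Agent.MWGR (cb)

/-! ### counting before a letter -/

theorem cb_app_mem {l : List ℕ} {v : ℕ} (h : v ∈ l) (l' : List ℕ) (x : ℕ) :
    cb (l ++ l') x v = cb l x v := by
  unfold cb
  induction l with
  | nil => simp at h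
  | cons a l ih =>
    by_cases ha : a = v
    · subst ha; simp
    · have h' : v ∈ l := by
        rcases List.mem_cons.1 h with h | h
        · exact absurd h.symm ha
        · exact h
      rw [List.cons_append, List.takeWhile_cons_of_pos (by simpa using ha),
        List.takeWhile_cons_of_pos (by simpa using ha), List.count_cons, List.count_cons, ih h']

theorem cb_app_not {l : List ℕ} {v : ℕ} (h : v ∉ l) (l' : List ℕ) (x : ℕ) :
    cb (l ++ l') x v = l.count x + cb l' x v := by
  unfold cb
  induction l with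
  | nil => simp
  | cons a l ih =>
    have ha : a ≠ v := fun e => h (e ▸ List.mem_cons_self)
    have h' : v ∉ l := fun e => h (List.mem_cons_of_mem _ e)
    rw [List.cons_append, List.takeWhile_cons_of_pos (by simpa using ha), List.count_cons,
      List.count_cons, ih h']
    omega

theorem cb_le' (l : List ℕ) (x v : ℕ) : cb l x v ≤ l.count x := by
  unfold cb
  exact (List.takeWhile_sublist _).count_le x

theorem cb_cons_self (l : List ℕ) (x v : ℕ) : cb (v :: l) x v = 0 := by
  unfold cb
  rw [List.takeWhile_cons_of_neg (by simp)]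
  rfl

theorem not_mem_rep {n z v : ℕ} (h : v ≠ z) : v ∉ List.replicate n z :=
  fun e => h (List.eq_of_mem_replicate e)

/-- counts of a filtered list -/
theorem cf (p : ℕ → Bool) (l : List ℕ) (a : ℕ) :
    (l.filter p).count a = if p a = true then l.count a else 0 := by
  by_cases h : p a = true
  · rw [if_pos h, List.count_filter h]
  · rw [if_neg h, List.count_eq_zero]
    intro h'
    exact h (List.mem_filter.1 h').2

/-! ### the letters `x`, `y` -/

theorem xx_of {X : List ℕ} (h : ∀ a ∈ X, a = 0 ∨ a = 3) (h0 : X.count 0 = 1)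
    (h3 : X.count 3 = 1) : XX X := by
  have hP : X.Perm [0, 3] := by
    rw [List.perm_iff_count]
    intro a
    by_cases a0 : a = 0
    · subst a0; rw [h0]; rfl
    · by_cases a3 : a = 3
      · subst a3; rw [h3]; rfl
      · have h1 : a ∉ X := fun e => by
          rcases h a e with h | h
          · exact a0 h
          · exact a3 h
        rw [List.count_eq_zero.2 h1, List.count_eq_zero.2 (by simp [a0, a3])]
  have hl := hP.length_eq
  match X, hl with
  | [a, b], _ =>
    have ha := h a (by simp)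
    have hb := h b (by simp)
    rcases ha with rfl | rfl
    · rcases hb with rfl | rfl
      · simp at h0
      · exact Or.inl rfl
    · rcases hb with rfl | rfl
      · exact Or.inr rfl
      · simp at h3

theorem xx_mem {X : List ℕ} (h : XX X) {v : ℕ} : v ∈ X ↔ (v = 0 ∨ v = 3) := by
  rcases h with rfl | rfl
  · simp
  · simp [or_comm]

theorem xx_count {X : List ℕ} (h : XX X) (a : ℕ) :
    X.count a = if a = 0 ∨ a = 3 then 1 else 0 := by
  by_cases a0 : a = 0
  · subst a0
    rcases h with rfl | rfl <;> rfl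
  · by_cases a3 : a = 3
    · subst a3
      rcases h with rfl | rfl <;> rfl
    · rw [if_neg (by simp [a0, a3]), List.count_eq_zero, xx_mem h]
      simp [a0, a3]

theorem fxy_tk {n z v l : ℕ} (hz0 : z ≠ 0) (hz3 : z ≠ 3) (hv : v = 0 ∨ v = 3) :
    fxy (tk n z v l) = [v] := by
  unfold fxy tk
  rw [List.filter_append, List.filter_cons]
  have h1 : ∀ k, (List.replicate k z).filter (fun a => decide (a = 0 ∨ a = 3)) = [] := by
    intro k
    rw [List.filter_eq_nil_iff]
    intro a ha
    rw [List.eq_of_mem_replicate ha]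
    simp [hz0, hz3]
  rw [h1, h1, if_pos (by simpa using hv)]
  rfl

theorem fxy_KZ {n z : ℕ} {X : List ℕ} (hz0 : z ≠ 0) (hz3 : z ≠ 3) (hX : XX X) :
    fxy (KZ n z X) = X := by
  have h1 : ∀ v l, (v = 0 ∨ v = 3) → (tk n z v l).filter (fun a => decide (a = 0 ∨ a = 3)) = [v] :=
    fun v l h => fxy_tk hz0 hz3 h
  rcases hX with rfl | rfl
  · unfold KZ fxy
    simp only [List.flatMap_cons, List.flatMap_nil, List.append_nil, List.filter_append]
    rw [h1 0 _ (Or.inl rfl), h1 3 _ (Or.inr rfl)]
    rfl
  · unfold KZ fxy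
    simp only [List.flatMap_cons, List.flatMap_nil, List.append_nil, List.filter_append]
    rw [h1 0 _ (Or.inl rfl), h1 3 _ (Or.inr rfl)]
    rfl

theorem count_tk {n z v l : ℕ} (hl : l ≤ 2 * n) (hv : v ≠ z) (a : ℕ) :
    (tk n z v l).count a = if a = z then 3 * n else if a = v then 1 else 0 := by
  unfold tk
  rw [List.count_append, List.count_cons, List.count_replicate, List.count_replicate]
  by_cases h1 : a = z
  · subst h1
    simp [hv]
    omega
  · have h1' : ¬ z = a := fun e => h1 e.symm
    by_cases h2 : a = v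
    · subst h2
      simp [h1, h1']
    · have h2' : ¬ v = a := fun e => h2 e.symm
      simp [h1, h1', h2, h2']

theorem count_KZ {n z : ℕ} {X : List ℕ} (hn : 1 ≤ n) (hz0 : z ≠ 0) (hz3 : z ≠ 3) (hX : XX X)
    (a : ℕ) : (KZ n z X).count a = if a = z then 6 * n else if a = 0 ∨ a = 3 then 1 else 0 := by
  have l0 : lam 0 = 0 := rfl
  have l3 : lam 3 = 1 := rfl
  have c0 := count_tk (n := n) (z := z) (v := 0) (l := lam 0) (by rw [l0]; omega) hz0.symm a
  have c3 := count_tk (n := n) (z := z) (v := 3) (l := lam 3) (by rw [l3]; omega) hz3.symm a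
  have key : (KZ n z X).count a = (tk n z 0 (lam 0)).count a + (tk n z 3 (lam 3)).count a := by
    rcases hX with rfl | rfl
    · unfold KZ
      simp only [List.flatMap_cons, List.flatMap_nil, List.append_nil, List.count_append]
    · unfold KZ
      simp only [List.flatMap_cons, List.flatMap_nil, List.append_nil, List.count_append]
      omega
  rw [key, c0, c3]
  by_cases h1 : a = z
  · simp [h1]; omega
  · by_cases h2 : a = 0
    · subst h2; simp [h1]
    · by_cases h3 : a = 3
      · subst h3; simp [h1]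
      · simp [h1, h2, h3]

theorem cb_tk {n z v l : ℕ} (hv : v ≠ z) : cb (tk n z v l) z v = n + l := by
  unfold tk
  rw [cb_app_not (not_mem_rep hv), cb_cons_self]
  simp

theorem mem_tk (n z v l : ℕ) : v ∈ tk n z v l := by
  unfold tk
  simp

theorem not_mem_tk {n z v l u : ℕ} (h1 : u ≠ z) (h2 : u ≠ v) : u ∉ tk n z v l := by
  unfold tk
  simp only [List.mem_append, List.mem_cons, not_or]
  exact ⟨not_mem_rep h1, h2, not_mem_rep h1⟩

/-- the position of the tokens -/
theorem tk2_KZ {n z : ℕ} {X : List ℕ} (hn : 1 ≤ n) (hz0 : z ≠ 0) (hz3 : z ≠ 3) (hX : XX X)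
    (L : List ℕ) : Tk2 z (KZ n z X ++ L) := by
  have l0 : lam 0 = 0 := rfl
  have l3 : lam 3 = 1 := rfl
  have ct : (KZ n z X).count z = 6 * n := by rw [count_KZ hn hz0 hz3 hX]; simp
  have mem : ∀ v, v = 0 ∨ v = 3 → v ∈ KZ n z X := by
    intro v hv
    rw [← List.one_le_count_iff, count_KZ hn hz0 hz3 hX]
    have : v ≠ z := by
      rcases hv with rfl | rfl
      · exact hz0.symm
      · exact hz3.symm
    rw [if_neg this, if_pos hv]
  intro v hv
  rw [cb_app_mem (mem v hv), List.count_append, ct]
  have t0 : (tk n z 0 (lam 0)).count z = 3 * n := by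
    rw [count_tk (by rw [l0]; omega) hz0.symm]; simp
  have t3 : (tk n z 3 (lam 3)).count z = 3 * n := by
    rw [count_tk (by rw [l3]; omega) hz3.symm]; simp
  have e03 : (0 : ℕ) ∉ tk n z 3 (lam 3) := not_mem_tk hz0.symm (by norm_num)
  have e30 : (3 : ℕ) ∉ tk n z 0 (lam 0) := not_mem_tk hz3.symm (by norm_num)
  rcases hX with rfl | rfl
  · have e : KZ n z [0, 3] = tk n z 0 (lam 0) ++ tk n z 3 (lam 3) := by
      unfold KZ
      simp only [List.flatMap_cons, List.flatMap_nil, List.append_nil]
    rw [e]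
    rcases hv with rfl | rfl
    · rw [cb_app_mem (mem_tk _ _ _ _), cb_tk hz0.symm, l0]
      omega
    · rw [cb_app_not e30, cb_tk hz3.symm, t0, l3]
      omega
  · have e : KZ n z [3, 0] = tk n z 3 (lam 3) ++ tk n z 0 (lam 0) := by
      unfold KZ
      simp only [List.flatMap_cons, List.flatMap_nil, List.append_nil]
    rw [e]
    rcases hv with rfl | rfl
    · rw [cb_app_not e03, cb_tk hz0.symm, t3, l0]
      omega
    · rw [cb_app_mem (mem_tk _ _ _ _), cb_tk hz3.symm, l3]
      omega

/-- padded words -/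
theorem tk2_pad {n z : ℕ} (hn : 1 ≤ n) (hz0 : z ≠ 0) (hz3 : z ≠ 3) {L : List ℕ} (h0 : 0 ∈ L)
    (h3 : 3 ∈ L) : Tk2 z (List.replicate n z ++ (L ++ List.replicate n z)) := by
  intro v hv
  have hvz : v ≠ z := by
    rcases hv with rfl | rfl
    · exact hz0.symm
    · exact hz3.symm
  have hvL : v ∈ L := by
    rcases hv with rfl | rfl
    · exact h0
    · exact h3
  have h1 := cb_le' L z v
  rw [cb_app_not (not_mem_rep hvz), cb_app_mem hvL, List.count_append, List.count_append,
    List.count_replicate_self]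
  omega

theorem Bw_ext {R : List ℕ} {B B' : ℕ → List ℕ} (h : ∀ r ∈ R, B r = B' r) : Bw R B = Bw R B' := by
  unfold Bw
  exact List.flatMap_congr (fun r hr => by rw [h r hr])

theorem sfr_rep {n z : ℕ} (h : z % 3 ≠ 2) : SFr (List.replicate n z) :=
  fun c hc => by rw [List.eq_of_mem_replicate hc]; exact h

theorem sfr_app {a b : List ℕ} (h1 : SFr a) (h2 : SFr b) : SFr (a ++ b) := by
  intro c hc
  rcases List.mem_append.1 hc with h | h
  · exact h1 c h
  · exact h2 c h

theorem sfr_KZ {n z : ℕ} {X : List ℕ} (h : z % 3 ≠ 2) (hX : XX X) : SFr (KZ n z X) := by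
  intro c hc
  unfold KZ at hc
  rw [List.mem_flatMap] at hc
  obtain ⟨v, hv, hc⟩ := hc
  rw [xx_mem hX] at hv
  unfold tk at hc
  rw [List.mem_append, List.mem_cons] at hc
  rcases hc with h1 | h1 | h1
  · rw [List.eq_of_mem_replicate h1]; exact h
  · rw [h1]
    rcases hv with rfl | rfl <;> norm_num
  · rw [List.eq_of_mem_replicate h1]; exact h

theorem bfr_ne {R : List ℕ} (hR : R.Nodup) {a b : ℕ} (h : Bfr R a b) : a ≠ b := by
  rintro rfl
  obtain ⟨A, B, C, e⟩ := h
  rw [e] at hR
  have h1 := List.nodup_iff_count_le_one.1 hR a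
  rw [List.count_append, List.count_cons_self, List.count_append, List.count_cons_self] at h1
  omega

/-- **CL0.** -/
theorem cl0 (lqr : LqrStmt) (baz : BazStmt) (lbz : LbzStmt) (trz : TrzStmt) (bln : BlnStmt) :
    Cl0Stmt := by
  intro n β m R c X B e S hX hB he hrel α Y Y' γ Λ h0 hP hQ hR
  have hz := S.hz
  have n2 := hz.n2
  have z0 : 3 * m + 1 ≠ 0 := by omega
  have z3 : 3 * m + 1 ≠ 3 := by omega
  have z32 : (3 * m + 1) % 3 ≠ 2 := by omega
  have hRn : R.Nodup := S.pR.nodup_iff.2 List.nodup_range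
  -- the padded word
  have p0 : ∀ B' : ℕ → List ℕ, pz n (3 * m + 1) B' 0 =
      List.replicate n (3 * m + 1) ++ (B' 0 ++ List.replicate n (3 * m + 1)) := by
    intro B'; unfold pz up; rw [if_pos rfl]
  have pr : ∀ (B' : ℕ → List ℕ) (r : ℕ), r ≠ 0 → pz n (3 * m + 1) B' r = B' r := by
    intro B' r hr; unfold pz up; rw [if_neg hr]
  have psf : ∀ B' : ℕ → List ℕ, (∀ r, SFr (B' r)) → ∀ r, SFr (pz n (3 * m + 1) B' r) := by
    intro B' h r
    by_cases hr : r = 0
    · subst hr
      rw [p0]
      exact sfr_app (sfr_rep z32) (sfr_app (h 0) (sfr_rep z32))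
    · rw [pr B' r hr]; exact h r
  have bz := baz n β m R c X (pz n (3 * m + 1) B) e hz S.can S.pR S.b01 hX (psf B hB) he hrel
  obtain ⟨h, hb1, hh0, hh3, hch, hhc⟩ := S.hb X B e hX hB he hrel
  -- the new block `0`
  have hPB : (α ++ (Y' ++ γ)).Perm (B 0) := by
    rw [h0]
    exact (hP.symm.append_right γ).append_left α
  have cnt : ∀ a, (α ++ (Y' ++ γ)).count a = (B 0).count a := fun a => hPB.count_eq a
  have b0c0 : (B 0).count 0 = 1 := by
    have := bz.x0
    rw [p0, List.count_append, List.count_append, List.count_replicate] at this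
    simpa using this
  have b0c3 : (B 0).count 3 = 1 := by
    have := bz.y0
    rw [p0, List.count_append, List.count_append, List.count_eq_zero.2 (not_mem_rep z3.symm)] at this
    omega
  have b0c : ∀ v, v = 0 ∨ v = 3 → (B 0).count v = 1 := by
    rintro v (rfl | rfl)
    · exact b0c0
    · exact b0c3
  obtain ⟨X', hX'e⟩ : ∃ X', X' = fxy (α ++ (Y' ++ γ)) := ⟨_, rfl⟩
  have hX' : XX X' := by
    apply xx_of
    · intro a ha
      rw [hX'e] at ha
      unfold fxy at ha
      simpa using (List.mem_filter.1 ha).2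
    · rw [hX'e]; unfold fxy; rw [cf, cnt, b0c0]; simp
    · rw [hX'e]; unfold fxy; rw [cf, cnt, b0c3]; simp
  have sN : SFr (α ++ (Y' ++ γ)) := fun a ha => hB 0 a (hPB.mem_iff.1 ha)
  obtain ⟨D, hD⟩ : ∃ D, D = List.replicate n (3 * m + 1) ++ ((α ++ (Y' ++ γ)) ++
    List.replicate n (3 * m + 1)) := ⟨_, rfl⟩
  have sD : SFr D := by
    rw [hD]
    exact sfr_app (sfr_rep z32) (sfr_app sN (sfr_rep z32))
  have cD : ∀ a, D.count a = (pz n (3 * m + 1) B 0).count a := by
    intro a
    rw [hD, p0, List.count_append, List.count_append (l₁ := α ++ (Y' ++ γ)), cnt,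
      List.count_append, List.count_append]
  -- the word `W`
  have t1 := (trz n β m R c X (pz n (3 * m + 1) B) e hz S.can S.pR S.b01 hX (psf B hB) he hrel).1
    X' hX'
  obtain ⟨W, hW⟩ : ∃ W, W = tbz n m (pz n (3 * m + 1) B) X' := ⟨_, rfl⟩
  rw [← hW] at t1
  have W0 : W 0 = KZ n (3 * m + 1) X' ++ dxy (pz n (3 * m + 1) B 0) := by
    rw [hW]; unfold tbz; rw [if_pos rfl]
  have hdh : dxy (B 1) = h := by
    rw [hb1]
    unfold dxy
    rw [List.filter_cons_of_neg (by simp), List.filter_append, List.filter_cons_of_neg (by simp)]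
    rw [List.filter_eq_self.2 (by
      intro a ha
      have a0 : a ≠ 0 := fun e => hh0 (e ▸ ha)
      have a3 : a ≠ 3 := fun e => hh3 (e ▸ ha)
      simp [a0, a3])]
    simp
  have W1 : W 1 = B 1 := by
    rw [hW]; unfold tbz
    rw [if_neg (by norm_num), if_pos rfl, pr B 1 (by norm_num), hdh, hb1]
  have Wr : ∀ r, r ≠ 0 → r ≠ 1 → W r = B r := by
    intro r h1 h2
    rw [hW]; unfold tbz
    rw [if_neg h1, if_neg h2, pr B r h1]
  have Wr' : ∀ r, r ≠ 0 → W r = B r := by
    intro r h1
    by_cases h2 : r = 1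
    · rw [h2]; exact W1
    · exact Wr r h1 h2
  have sW : ∀ r, SFr (W r) := by
    intro r
    by_cases h1 : r = 0
    · subst h1
      rw [W0]
      refine sfr_app (sfr_KZ z32 hX') ?_
      intro a ha
      unfold dxy at ha
      exact psf B hB 0 a (List.mem_filter.1 ha).1
    · rw [Wr' r h1]; exact hB r
  have bW := baz n β m R c X' W e hz S.can S.pR S.b01 hX' sW he t1
  have bfW : Bfz m R c W e :=
    { toBz := bW
      fu := by
        intro a ha
        rw [W1, hb1]
        exact List.mem_cons_of_mem _ (List.mem_append_left _ (hch a ha)) }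
  -- the labels
  have lW := lbz n β m R c X' W e hz S.can S.pR S.b01 hX' sW he t1
  have lP := lbz n β m R c X (pz n (3 * m + 1) B) e hz S.can S.pR S.b01 hX (psf B hB) he hrel
  obtain ⟨-, q2, q3, q4, -⟩ := lqr n β hz
  have claim : ∀ v, v = 0 ∨ v = 3 →
      cb (pz n (3 * m + 1) B 0) (3 * m + 1) v ≡ cb D (3 * m + 1) v [MOD n] := by
    intro v hv
    have hvz : v ≠ 3 * m + 1 := by
      rcases hv with rfl | rfl
      · exact z0.symm
      · exact z3.symm
    rw [p0, hD, h0, cb_app_not (not_mem_rep hvz), cb_app_not (not_mem_rep hvz)]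
    have hcv := b0c v hv
    rw [h0, List.count_append, List.count_append] at hcv
    by_cases hα : v ∈ α
    · simp only [List.append_assoc]
      rw [cb_app_mem hα, cb_app_mem hα]
    · simp only [List.append_assoc]
      rw [cb_app_not hα, cb_app_not hα]
      by_cases hY : v ∈ Y
      · have hY' : v ∈ Y' := hP.mem_iff.1 hY
        rw [cb_app_mem hY, cb_app_mem hY']
        have hY1 : Y.count v = 1 := by
          have := List.one_le_count_iff.2 hY
          omega
        obtain ⟨hΛ, hq⟩ := hQ v hY1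
        rcases hq (3 * m + 1) hvz.symm with hzΛ | ⟨hq, -⟩
        · exfalso
          rcases hR with ⟨a, b, hg⟩ | ⟨r', hr', hbf, a, b, hg⟩ | ⟨a, b, hg⟩
          · have h1 : v ∈ γ := by
              rw [hg]
              exact List.mem_append_right _ (List.mem_append_left _ hΛ)
            have := List.one_le_count_iff.2 h1
            omega
          · have h1 := bz.z1 r' hr' hbf
            rw [pr B r' (bfr_ne hRn hbf).symm, hg] at h1
            exact h1 (List.mem_append_right _ (List.mem_append_left _ hzΛ))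
          · have h1 := bz.ze
            rw [hg] at h1
            exact h1 (List.mem_append_right _ (List.mem_append_left _ hzΛ))
        · exact Nat.ModEq.add_left _ (Nat.ModEq.add_left _ hq)
      · have hY' : v ∉ Y' := fun h => hY (hP.mem_iff.2 h)
        rw [cb_app_not hY, cb_app_not hY', hP.count_eq]
  have lab : ∀ v, v = 0 ∨ v = 3 → Lq n β (cb (W 0) (3 * m + 1) v) (cb D (3 * m + 1) v) := by
    intro v hv
    exact q4 _ _ _ _ rfl (claim v hv) (q3 _ _ _ (lW.1 v hv) (q2 _ _ (lP.1 v hv)))
  -- the other hypotheses of `BLN`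
  have fD : fxy D = fxy (W 0) := by
    have e1 : fxy (dxy (pz n (3 * m + 1) B 0)) = [] := by
      unfold fxy
      rw [List.filter_eq_nil_iff]
      intro a ha
      unfold dxy at ha
      have := (List.mem_filter.1 ha).2
      simp only [decide_eq_true_eq] at this ⊢
      tauto
    have e2 : fxy (W 0) = fxy (KZ n (3 * m + 1) X') ++ fxy (dxy (pz n (3 * m + 1) B 0)) := by
      rw [W0]; unfold fxy; rw [List.filter_append]
    rw [e2, e1, fxy_KZ z0 z3 hX', List.append_nil, hD]
    have e3 : fxy (List.replicate n (3 * m + 1)) = [] := by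
      unfold fxy
      rw [List.filter_eq_nil_iff]
      intro a ha
      rw [List.eq_of_mem_replicate ha]
      simp [z3]
    have e4 : fxy (List.replicate n (3 * m + 1) ++ ((α ++ (Y' ++ γ)) ++
        List.replicate n (3 * m + 1))) = fxy (List.replicate n (3 * m + 1)) ++
          (fxy (α ++ (Y' ++ γ)) ++ fxy (List.replicate n (3 * m + 1))) := by
      unfold fxy
      rw [List.filter_append, List.filter_append]
    rw [e4, e3, ← hX'e]
    simp
  have dD : (dz (3 * m + 1) D).Perm (dz (3 * m + 1) (W 0)) := by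
    rw [List.perm_iff_count]
    intro a
    unfold dz
    rw [cf, cf]
    by_cases haz : a = 3 * m + 1
    · simp [haz]
    · rw [if_pos (by simpa using haz), if_pos (by simpa using haz), cD, W0, List.count_append,
        count_KZ (by omega) z0 z3 hX', if_neg haz]
      unfold dxy
      rw [cf]
      have hp : ∀ v, v = 0 ∨ v = 3 → (pz n (3 * m + 1) B 0).count v = 1 := by
        rintro v (rfl | rfl)
        · exact bz.x0
        · exact bz.y0
      by_cases hv : a = 0 ∨ a = 3
      · rw [if_pos hv, hp a hv, if_neg (by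
          simp only [decide_eq_true_eq]; tauto)]
      · rw [if_neg hv, if_pos (by
          simp only [decide_eq_true_eq]; tauto), Nat.zero_add]
  have tot : (W 0).count (3 * m + 1) ≡ D.count (3 * m + 1) [MOD n] := by
    rw [cD, W0, List.count_append, count_KZ (by omega) z0 z3 hX', if_pos rfl]
    unfold dxy
    rw [cf, if_pos (by simp [z3])]
    have : (pz n (3 * m + 1) B 0).count (3 * m + 1) ≡
        (pz n (3 * m + 1) B 0).count (3 * m + 1) [MOD n] := rfl
    have h6 : 6 * n ≡ 0 [MOD n] := (Nat.modEq_zero_iff_dvd).2 (Dvd.intro_left 6 rfl)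
    have := h6.add this
    rwa [Nat.zero_add] at this
  have tW : Tk2 (3 * m + 1) (W 0) := by
    rw [W0]
    exact tk2_KZ (by omega) z0 z3 hX' _
  have tD : Tk2 (3 * m + 1) D := by
    rw [hD]
    refine tk2_pad (by omega) z0 z3 ?_ ?_
    · rw [← List.one_le_count_iff, cnt, b0c0]
    · rw [← List.one_le_count_iff, cnt, b0c3]
  have t2 := bln n β m R c W e hz S.can S.pR S.b01 bfW D sD fD dD lab tot tW tD
  have e5 : Bw R (up W 0 D) = Bw R (pz n (3 * m + 1) (up B 0 (α ++ (Y' ++ γ)))) := by
    apply Bw_ext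
    intro r _
    by_cases h1 : r = 0
    · subst h1
      rw [p0, hD]
      unfold up
      rw [if_pos rfl, if_pos rfl]
    · rw [pr _ r h1]
      unfold up
      rw [if_neg h1, if_neg h1]
      exact Wr' r h1
  rw [e5] at t2
  exact ⟨X', hX', β.trans t1 t2⟩

end Pool.Agent.MWFE.H29
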